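import Pool.Agent.Helper4.CI.Goals
import Pool.Agent.Helper75.Mono.CellVol

/-! # Piece V0: the normalised volume of a polytope decomposed into open simplices -/

set_option autoImplicit false

namespace Mono.CI.V0

open Finset Filter Topology Pointwise Mono Mono.V2 Mono.S4

variable {n : ℕ}

/-- The count. -/
theorem ehr_eq (Ψ : Finset (Fin n → ℤ)) (R : Finset (Finset (Fin n → ℤ)))
    (h1 : ∀ (x : Fin n → ℝ) (t : ℝ), 0 < t →
      (x ∈ t • convexHull ℝ (toR '' (Ψ : Set (Fin n → ℤ))) ↔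
        ∃ r ∈ R, ∃ c : (Fin n → ℤ) → ℝ, (∀ u ∈ r, 0 < c u) ∧ x = ∑ u ∈ r, c u • toR u ∧
          ∑ u ∈ r, c u = t))
    (h2 : ∀ r ∈ R, ∀ r' ∈ R, ∀ c c' : (Fin n → ℤ) → ℝ, (∀ u ∈ r, 0 < c u) →
      (∀ u ∈ r', 0 < c' u) → ∑ u ∈ r, c u • toR u = ∑ u ∈ r', c' u • toR u → r = r')
    {k : ℕ} (hk : 1 ≤ k) :
    ehr Ψ k = ∑ r ∈ R, Nat.card {x : Fin n → ℤ // InS r k x} := by
  classical
  have hkR : (0 : ℝ) < k := by exact_mod_cast hk
  have hfin := finite_hull Ψ k
  have hmem : ∀ x : Fin n → ℤ,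
      toR x ∈ (k : ℝ) • convexHull ℝ (toR '' (Ψ : Set (Fin n → ℤ))) ↔ ∃ r ∈ R, InS r k x :=
    fun x => h1 (toR x) k hkR
  have hfinρ : ∀ r ∈ R, {x : Fin n → ℤ | InS r k x}.Finite := by
    intro r hr
    refine hfin.subset ?_
    intro x hx
    exact (hmem x).2 ⟨r, hr, hx⟩
  have h3 : ehr Ψ k = hfin.toFinset.card := by
    unfold ehr
    rw [← Set.ncard_eq_toFinset_card _ hfin]
    rfl
  have h4 : ∀ r (hr : r ∈ R), Nat.card {x : Fin n → ℤ // InS r k x} =
      (hfinρ r hr).toFinset.card := by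
    intro r hr
    rw [← Set.ncard_eq_toFinset_card _ (hfinρ r hr)]
    rfl
  rw [h3]
  have h5 : hfin.toFinset = R.attach.biUnion (fun r => (hfinρ r.1 r.2).toFinset) := by
    ext x
    simp only [Set.Finite.mem_toFinset, mem_biUnion, mem_attach, true_and, Subtype.exists]
    constructor
    · intro hx
      obtain ⟨r, hr, h⟩ := (hmem x).1 hx
      exact ⟨r, hr, h⟩
    · rintro ⟨r, hr, h⟩
      exact (hmem x).2 ⟨r, hr, h⟩
  rw [h5, Finset.card_biUnion]
  · rw [← Finset.sum_attach R (fun r => Nat.card {x : Fin n → ℤ // InS r k x})]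
    exact Finset.sum_congr rfl fun r _ => (h4 r.1 r.2).symm
  · intro r _ r' _ hne
    simp only [Function.onFun]
    rw [Finset.disjoint_left]
    intro x hx hx'
    rw [Set.Finite.mem_toFinset] at hx hx'
    apply hne
    apply Subtype.ext
    obtain ⟨c, hc, hxc, _⟩ := hx
    obtain ⟨c', hc', hxc', _⟩ := hx'
    exact h2 r.1 r.2 r'.1 r'.2 c c' hc hc' (hxc.symm.trans hxc')

theorem nvolDecomp (h : SimplexCount) : NvolDecomp := by
  classical
  intro n Ψ R hR h1 h2
  set d := dimF Ψ with hd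
  have hterm : ∀ r ∈ R, Tendsto (fun k : ℕ => (d.factorial : ℝ) *
      (Nat.card {x : Fin n → ℤ // InS r k x} : ℝ) / (k : ℝ) ^ d) atTop
      (𝓝 (if r.card = d + 1 then (vol r : ℝ) else 0)) := by
    intro r hr
    obtain ⟨hind, hne, hsub⟩ := hR r hr
    have hle := card_le_dim hsub hind hne
    rw [← hd] at hle
    have hcnt := h n r hne hind
    have hpos : 1 ≤ r.card := Finset.card_pos.2 hne
    split_ifs with hcd
    · have : r.card - 1 = d := by omega
      rw [this] at hcnt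
      exact hcnt
    · have hlt : r.card - 1 < d := by omega
      obtain ⟨e, he⟩ : ∃ e, e = r.card - 1 := ⟨_, rfl⟩
      rw [← he] at hcnt hlt
      have hz : Tendsto (fun k : ℕ => ((d.factorial : ℝ) / (e.factorial : ℝ)) *
          (((e.factorial : ℝ) * (Nat.card {x : Fin n → ℤ // InS r k x} : ℝ) /
            (k : ℝ) ^ e) * (1 / (k : ℝ) ^ (d - e)))) atTop
          (𝓝 (((d.factorial : ℝ) / (e.factorial : ℝ)) * ((vol r : ℝ) * 0))) := by
        refine Tendsto.const_mul _ (Tendsto.mul hcnt ?_)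
        have h1 : Tendsto (fun k : ℕ => (k : ℝ) ^ (d - e)) atTop atTop := by
          have : d - e ≠ 0 := by omega
          exact (tendsto_pow_atTop this).comp tendsto_natCast_atTop_atTop
        have h2 := h1.inv_tendsto_atTop
        refine h2.congr fun k => ?_
        simp [Pi.inv_apply]
      rw [mul_zero, mul_zero] at hz
      refine hz.congr' ?_
      filter_upwards [eventually_ge_atTop 1] with k hk
      have hkR : (k : ℝ) ≠ 0 := by positivity
      have hef : (e.factorial : ℝ) ≠ 0 := by positivity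
      have hpow : (k : ℝ) ^ d = (k : ℝ) ^ e * (k : ℝ) ^ (d - e) := by
        rw [← pow_add]
        congr 1
        omega
      rw [hpow]
      field_simp
  have hsum := tendsto_finsetSum R hterm
  have hlim : Tendsto (fun k : ℕ => (d.factorial : ℝ) * (ehr Ψ k : ℝ) / (k : ℝ) ^ d)
      atTop (𝓝 (∑ r ∈ R, if r.card = d + 1 then (vol r : ℝ) else 0)) := by
    refine hsum.congr' ?_
    filter_upwards [eventually_ge_atTop 1] with k hk
    rw [ehr_eq Ψ R h1 h2 hk]
    push_cast
    rw [Finset.mul_sum, Finset.sum_div]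
  have hval : (∑ r ∈ R, if r.card = d + 1 then (vol r : ℝ) else 0) =
      ((∑ r ∈ R.filter (fun r => r.card = d + 1), (vol r : ℤ) : ℤ) : ℝ) := by
    rw [← Finset.sum_filter]
    push_cast
    rfl
  rw [hval] at hlim
  have hex : ∃ V : ℤ, Tendsto (fun k : ℕ => ((dimF Ψ).factorial : ℝ) *
      ehr Ψ k / (k : ℝ) ^ dimF Ψ) atTop (𝓝 (V : ℝ)) := ⟨_, hlim⟩
  have h3 : nvol Ψ = hex.choose := by
    unfold nvol
    rw [dif_pos hex]
  rw [h3]
  have h4 := tendsto_nhds_unique hex.choose_spec hlim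
  exact_mod_cast h4

end Mono.CI.V0
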